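import Mathlib
import Pool.Agent.TH278.DX.Defs2
set_option autoImplicit false

namespace Pool.Agent.TH582.J4943
open Pool.Agent.TH278.DX

/-- the embedding `u ↦ (0, u)` of `H` into the Hilbert sum `H2 ⊕ H`. -/
noncomputable def inrL (H2 H : Type) [NormedAddCommGroup H] [InnerProductSpace ℂ H]
    [NormedAddCommGroup H2] [InnerProductSpace ℂ H2] : H →L[ℂ] WithLp 2 (H2 × H) :=
  ((WithLp.prodContinuousLinearEquiv 2 ℂ H2 H).symm : (H2 × H) →L[ℂ] WithLp 2 (H2 × H)).comp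
    (ContinuousLinearMap.inr ℂ H2 H)

theorem inrL_apply {H2 H : Type} [NormedAddCommGroup H] [InnerProductSpace ℂ H]
    [NormedAddCommGroup H2] [InnerProductSpace ℂ H2] (u : H) :
    inrL H2 H u = WithLp.toLp 2 ((0 : H2), u) := rfl

theorem factor {G H H2 : Type} [Group G] [NormedAddCommGroup H] [InnerProductSpace ℂ H]
    [CompleteSpace H] [NormedAddCommGroup H2] [InnerProductSpace ℂ H2] [CompleteSpace H2]
    (σ : G →* (H →L[ℂ] H)ˣ)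
    (hσ : ∀ g, ((σ g : (H →L[ℂ] H)ˣ) : H →L[ℂ] H) ∈ unitary (H →L[ℂ] H))
    (ξ η : H) (m : ℝ) (hm : 0 < m) (x y : G → H2) (hx : ∀ t, ‖x t‖ ^ 2 ≤ m)
    (hy : ∀ s, ‖y s‖ ^ 2 ≤ m)
    (hf : ∀ s t, inner ℂ (y s) (x t) = inner ℂ η (((σ (s * t) : (H →L[ℂ] H)ˣ) : H →L[ℂ] H) ξ)) :
    ∃ (H3 : Type) (_ : NormedAddCommGroup H3) (_ : InnerProductSpace ℂ H3) (_ : CompleteSpace H3)
      (R : H →L[ℂ] H3) (z : G → H3) (η' : H), ‖η'‖ ≤ ‖η‖ ∧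
      (∀ g, inner ℂ η' (((σ g : (H →L[ℂ] H)ˣ) : H →L[ℂ] H) ξ) =
        inner ℂ η (((σ g : (H →L[ℂ] H)ˣ) : H →L[ℂ] H) ξ)) ∧
      (∀ u : H, m * ‖R u‖ ^ 2 ≤ ‖η‖ ^ 2 * ‖u‖ ^ 2) ∧
      (∀ t, ‖R (((σ t : (H →L[ℂ] H)ˣ) : H →L[ℂ] H) ξ)‖ ^ 2 ≤ m) ∧
      (∀ s, ‖z s‖ ^ 2 ≤ 2 * m) ∧
      ∀ (s : G) (u : H), inner ℂ (z s) (R u) =
        inner ℂ η' (((σ s : (H →L[ℂ] H)ˣ) : H →L[ℂ] H) u) := by
  by_cases hη : η = 0
  · subst hη
    refine ⟨H, inferInstance, inferInstance, inferInstance, 0, fun _ => 0, 0, le_refl _,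
      fun _ => rfl, ?_, ?_, ?_, ?_⟩
    · intro u; simp
    · intro t; simpa using hm.le
    · intro s; simpa using hm.le
    · intro s u; simp
  -- adjoint facts
  have hadj : ∀ g, ContinuousLinearMap.adjoint ((σ g : (H →L[ℂ] H)ˣ) : H →L[ℂ] H) =
      (((σ g)⁻¹ : (H →L[ℂ] H)ˣ) : H →L[ℂ] H) := by
    intro g
    have h1 : ((σ g : (H →L[ℂ] H)ˣ) : H →L[ℂ] H) * star ((σ g : (H →L[ℂ] H)ˣ) : H →L[ℂ] H) = 1 :=
      Unitary.mul_star_self_of_mem (hσ g)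
    rw [← ContinuousLinearMap.star_eq_adjoint]
    exact (Units.eq_inv_of_mul_eq_one_left h1)
  set κ : ℝ := ‖η‖ ^ 2 / m with hκ
  have hη' : 0 < ‖η‖ := norm_pos_iff.mpr hη
  have hκ0 : 0 < κ := by positivity
  set r : ℝ := Real.sqrt κ with hr
  have hr0 : 0 < r := Real.sqrt_pos.mpr hκ0
  have hr2 : r ^ 2 = κ := Real.sq_sqrt hκ0.le
  have hκm : κ * m = ‖η‖ ^ 2 := by rw [hκ]; field_simp
  -- the subspace
  set N0 : Submodule ℂ (WithLp 2 (H2 × H)) := Submodule.span ℂ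
    (Set.range fun t : G => (WithLp.toLp 2 ((x t), -((r : ℂ) • ((σ t : (H →L[ℂ] H)ˣ) : H →L[ℂ] H) ξ)) :
      WithLp 2 (H2 × H))) with hN0
  set K : Submodule ℂ (WithLp 2 (H2 × H)) := N0ᗮ with hK
  have _ : CompleteSpace K := inferInstance
  let P : WithLp 2 (H2 × H) →L[ℂ] WithLp 2 (H2 × H) := K.starProjection
  have hPn : ∀ w, ‖P w‖ ≤ ‖w‖ := fun w => K.norm_starProjection_apply_le w
  let R : H →L[ℂ] WithLp 2 (H2 × H) := (r : ℂ) • (P.comp (inrL H2 H))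
  have hR : ∀ u, R u = P (WithLp.toLp 2 ((0 : H2), (r : ℂ) • u)) := by
    intro u
    have : (WithLp.toLp 2 ((0 : H2), (r : ℂ) • u) : WithLp 2 (H2 × H)) =
        (r : ℂ) • inrL H2 H u := by
      rw [← map_smul, inrL_apply]
    rw [this, map_smul]; rfl
  let z : G → WithLp 2 (H2 × H) := fun s =>
    WithLp.toLp 2 (y s, ((r : ℂ)⁻¹) • (((σ s)⁻¹ : (H →L[ℂ] H)ˣ) : H →L[ℂ] H) η)
  have hrC : (r : ℂ) ≠ 0 := by exact_mod_cast hr0.ne'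
  have hinv : ∀ (s : G) (v : H), inner ℂ ((((σ s)⁻¹ : (H →L[ℂ] H)ˣ) : H →L[ℂ] H) η) v =
      inner ℂ η (((σ s : (H →L[ℂ] H)ˣ) : H →L[ℂ] H) v) := by
    intro s v
    rw [← hadj s, ContinuousLinearMap.adjoint_inner_left]
  have hzK : ∀ s, z s ∈ K := by
    intro s
    rw [hK, Submodule.mem_orthogonal]
    intro w hw
    refine Submodule.span_induction ?_ ?_ ?_ ?_ hw
    · rintro _ ⟨t, rfl⟩
      have h1 : inner ℂ (z s) (WithLp.toLp 2 ((x t), -((r : ℂ) • ((σ t : (H →L[ℂ] H)ˣ) : H →L[ℂ] H) ξ)) :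
          WithLp 2 (H2 × H)) = 0 := by
        rw [WithLp.prod_inner_apply]
        simp only [z]
        rw [inner_neg_right, inner_smul_left, inner_smul_right, hf, hinv]
        have h2 : ((σ (s * t) : (H →L[ℂ] H)ˣ) : H →L[ℂ] H) ξ =
            ((σ s : (H →L[ℂ] H)ˣ) : H →L[ℂ] H) (((σ t : (H →L[ℂ] H)ˣ) : H →L[ℂ] H) ξ) := by
          rw [map_mul]; rfl
        rw [h2]
        simp only [map_inv₀, Complex.conj_ofReal]
        field_simp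
        ring
      exact inner_eq_zero_symm.mp h1
    · simp
    · intro a b _ _ ha hb
      rw [inner_add_left, ha, hb, add_zero]
    · intro c a _ ha
      rw [inner_smul_left, ha, mul_zero]
  have hPz : ∀ s w, inner ℂ (z s) (P w) = inner ℂ (z s) w := by
    intro s w
    have h1 : P (z s) = z s := Submodule.starProjection_eq_self_iff.mpr (hzK s)
    have h2 : inner ℂ (P (z s)) w = inner ℂ (z s) (P w) :=
      Submodule.inner_starProjection_left_eq_right K (z s) w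
    rw [← h2, h1]
  have hσn : ∀ (s : G), ‖(((σ s)⁻¹ : (H →L[ℂ] H)ˣ) : H →L[ℂ] H) η‖ = ‖η‖ := by
    intro s
    have h1 : ‖(((σ s)⁻¹ : (H →L[ℂ] H)ˣ) : H →L[ℂ] H) η‖ ^ 2 = ‖η‖ ^ 2 := by
      have h2 : inner ℂ ((((σ s)⁻¹ : (H →L[ℂ] H)ˣ) : H →L[ℂ] H) η)
          ((((σ s)⁻¹ : (H →L[ℂ] H)ˣ) : H →L[ℂ] H) η) = inner ℂ η η := by
        rw [hinv]
        congr 1
        have : ((σ s : (H →L[ℂ] H)ˣ) : H →L[ℂ] H) * (((σ s)⁻¹ : (H →L[ℂ] H)ˣ) : H →L[ℂ] H) = 1 :=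
          Units.mul_inv _
        have h3 := congrArg (fun T : H →L[ℂ] H => T η) this
        exact h3
      rw [inner_self_eq_norm_sq_to_K, inner_self_eq_norm_sq_to_K] at h2
      exact_mod_cast h2
    exact (sq_eq_sq₀ (norm_nonneg _) (norm_nonneg _)).mp h1
  refine ⟨WithLp 2 (H2 × H), inferInstance, inferInstance, inferInstance, R, z, η, le_refl _,
    fun _ => rfl, ?_, ?_, ?_, ?_⟩
  · intro u
    have h1 : ‖R u‖ ^ 2 ≤ κ * ‖u‖ ^ 2 := by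
      rw [hR]
      calc ‖P (WithLp.toLp 2 ((0 : H2), (r : ℂ) • u))‖ ^ 2
          ≤ ‖(WithLp.toLp 2 ((0 : H2), (r : ℂ) • u) : WithLp 2 (H2 × H))‖ ^ 2 := by
            gcongr; exact hPn _
        _ = κ * ‖u‖ ^ 2 := by
            rw [WithLp.prod_norm_sq_eq_of_L2]
            change ‖(0 : H2)‖ ^ 2 + ‖(r : ℂ) • u‖ ^ 2 = κ * ‖u‖ ^ 2
            rw [norm_zero, norm_smul, Complex.norm_real, Real.norm_eq_abs, abs_of_pos hr0,
              ← hr2]; ring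
    calc m * ‖R u‖ ^ 2 ≤ m * (κ * ‖u‖ ^ 2) := by gcongr
      _ = ‖η‖ ^ 2 * ‖u‖ ^ 2 := by rw [← hκm]; ring
  · intro t
    rw [hR]
    have h0 : (WithLp.toLp 2 ((x t), -((r : ℂ) • ((σ t : (H →L[ℂ] H)ˣ) : H →L[ℂ] H) ξ)) :
        WithLp 2 (H2 × H)) ∈ N0 := Submodule.subset_span ⟨t, rfl⟩
    have h1 : P (WithLp.toLp 2 ((x t), -((r : ℂ) • ((σ t : (H →L[ℂ] H)ˣ) : H →L[ℂ] H) ξ))) = 0 := by
      rw [show P = K.starProjection from rfl, Submodule.starProjection_apply_eq_zero_iff, hK]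
      exact Submodule.le_orthogonal_orthogonal _ h0
    have h2 : (WithLp.toLp 2 ((0 : H2), (r : ℂ) • ((σ t : (H →L[ℂ] H)ˣ) : H →L[ℂ] H) ξ) :
        WithLp 2 (H2 × H)) = WithLp.toLp 2 (x t, (0 : H)) -
        WithLp.toLp 2 ((x t), -((r : ℂ) • ((σ t : (H →L[ℂ] H)ˣ) : H →L[ℂ] H) ξ)) := by
      rw [← WithLp.toLp_sub]
      congr 1
      ext <;> simp
    rw [h2, map_sub, h1, sub_zero]
    calc ‖P (WithLp.toLp 2 (x t, (0 : H)))‖ ^ 2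
        ≤ ‖(WithLp.toLp 2 (x t, (0 : H)) : WithLp 2 (H2 × H))‖ ^ 2 := by
          gcongr; exact hPn _
      _ = ‖x t‖ ^ 2 := by
          rw [WithLp.prod_norm_sq_eq_of_L2]; simp
      _ ≤ m := hx t
  · intro s
    have h1 : ‖z s‖ ^ 2 = ‖y s‖ ^ 2 + (r⁻¹ * ‖η‖) ^ 2 := by
      rw [WithLp.prod_norm_sq_eq_of_L2]
      change ‖y s‖ ^ 2 + ‖((r : ℂ)⁻¹) • (((σ s)⁻¹ : (H →L[ℂ] H)ˣ) : H →L[ℂ] H) η‖ ^ 2 = _
      rw [norm_smul, norm_inv, Complex.norm_real, Real.norm_eq_abs, abs_of_pos hr0, hσn]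
    have h2 : (r⁻¹ * ‖η‖) ^ 2 = m := by
      rw [mul_pow, inv_pow, hr2, ← hκm]; field_simp
    rw [h1, h2]
    linarith [hy s]
  · intro s u
    rw [hR, hPz, WithLp.prod_inner_apply]
    simp only [z]
    rw [inner_zero_right, zero_add, inner_smul_left, inner_smul_right, hinv]
    simp only [map_inv₀, Complex.conj_ofReal]
    field_simp

end Pool.Agent.TH582.J4943
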